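import Pool.Agent.Q284.M.Trans
import Pool.Agent.TH270.SH.Law

/-!
# A criterion for the continuation of `L(H^i(X), s)` to the right of the centre

`X` is a smooth projective variety of dimension `d` over a number field `K`, `i ≤ 2 d`, `S` is a set of
primes of `K` containing the primes of bad reduction, and `α_{v,1}, …, α_{v,N}` are the eigenvalues of
Frobenius on `H^i(X)`, `v ∉ S`. The L-function `L(H^i(X), s) = ∏_{v ∉ S} ∏_j (1 - α_{v,j} q_v^{-s})⁻¹`
converges absolutely for `Re s > i/2 + 1`. The conjecture says that it has a continuation to `ℂ`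
without poles except possibly at `i/2 + 1`, and one expects that there are no zeros to the right of
the centre `c = (i + 1)/2`. Nothing about continuation is known or assumed here for general `X`.

For `ρ > 1` let `w_ρ` be the function `w_ρ(u) = (2πi)⁻¹ ∫ exp (z - u z^{1/ρ}) dz/z` (the integral over
the line `Re z = 1`; it is the entire function `∑_k (-u)^k / (k! Γ(1 - k/ρ))`, which decreases from
`1` at `u = 0` to `0` at `u = ∞`), and for `ρ' > ρ` let

`M(Y) = ∑ w_ρ(log q_v / log Y) log |∏_j (1 - α_{v,j} q_v^{-c})|`, `log q_v ≤ (log Y)^ρ'`, `v ∉ S`.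

It is proved, for every `X` over every number field, that the L-function has a continuation to a
holomorphic function without zeros in the angle `|arg (s - c)| < π/(2ρ)` if and only if `M(Y)` grows
more slowly than `exp (ε (log Y)^ρ)`, for all `ε > 0`; and it has such a continuation to the whole
half-plane `Re s > c` if and only if this is true for all `ρ > 1`. If `M(Y) = m log log Y + O(1)`, then
the continuation `F` has the size `|F(c + x)| ≍ x^m`, and if a continuation `F` is known which is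
analytic at `c`, then the absence of zeros in the angle and the order `m` at `c` are equivalent to
`M(Y) = m log log Y + O(1)`, and to `M(Y) ∼ m log log Y`.
-/

set_option autoImplicit false

namespace Pool.Agent.Results.MP_039d94_nt.ContinuationCriterion

open Filter Topology Set NumberField IsDedekindDomain
open Pool.Agent.TH958.BV (IsFrobenius cone)

variable {K : Type} [Field K] [NumberField K] {N : ℕ}

/-- `q_v`, the number of elements of the residue field of `v`. -/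
noncomputable def q (v : HeightOneSpectrum (𝓞 K)) : ℕ := Ideal.absNorm v.asIdeal

/-- The centre `(i + 1)/2`. -/
noncomputable def centre (i : ℕ) : ℝ := ((i : ℝ) + 1) / 2

/-- The L-function `∏_{v ∉ S} ∏_j (1 - α_{v,j} q_v^{-s})⁻¹`. -/
noncomputable def LFun (S : Set (HeightOneSpectrum (𝓞 K)))
    (α : HeightOneSpectrum (𝓞 K) → Fin N → ℂ) (s : ℂ) : ℂ :=
  ∏' v : {v // v ∉ S}, ∏ j, (1 - α v.1 j * (q v.1 : ℂ) ^ (-s))⁻¹

/-- The open angle `|arg (s - c)| < π/(2ρ)` with vertex at the centre. -/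
def angle (i : ℕ) (ρ : ℝ) : Set ℂ :=
  {s : ℂ | s ≠ (centre i : ℂ) ∧ |Complex.arg (s - centre i)| < Real.pi / (2 * ρ)}

/-- The half-plane `Re s > (i + 1)/2`. -/
def halfPlane (i : ℕ) : Set ℂ := {s : ℂ | centre i < s.re}

/-- `F` continues the L-function to a holomorphic function without zeros on `V`: it is holomorphic
and different from zero on `V` and on `Re s > i/2 + 1`, where it is the L-function. -/
def IsZeroFreeContinuation (S : Set (HeightOneSpectrum (𝓞 K))) (i : ℕ)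
    (α : HeightOneSpectrum (𝓞 K) → Fin N → ℂ) (V : Set ℂ) (F : ℂ → ℂ) : Prop :=
  (∀ s : ℂ, s ∈ V ∨ (i : ℝ) / 2 + 1 < s.re → DifferentiableAt ℂ F s ∧ F s ≠ 0) ∧
    ∀ s : ℂ, (i : ℝ) / 2 + 1 < s.re → F s = LFun S α s

/-- The weight `w_ρ(u) = (2πi)⁻¹ ∫ exp (z - u z^{1/ρ}) dz/z` over the line `Re z = 1`. -/
noncomputable def weight (ρ u : ℝ) : ℝ :=
  (2 * Real.pi)⁻¹ * ∫ t : ℝ, (Complex.exp ((1 + t * Complex.I) -
    u * (1 + t * Complex.I) ^ ((ρ⁻¹ : ℝ) : ℂ)) / (1 + t * Complex.I)).re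

/-- `M(Y)`: the sum over the primes `v ∉ S` with `log q_v ≤ (log Y)^ρ'` of
`w_ρ(log q_v / log Y) log |∏_j (1 - α_{v,j} q_v^{-c})|`, `c = (i + 1)/2`. -/
noncomputable def mean (S : Set (HeightOneSpectrum (𝓞 K))) (i : ℕ)
    (α : HeightOneSpectrum (𝓞 K) → Fin N → ℂ) (ρ ρ' Y : ℝ) : ℝ :=
  ∑ᶠ (v : {v // v ∉ S}) (_ : (q v.1 : ℝ) ≤ Real.exp (Real.log Y ^ ρ')),
    weight ρ (Real.log (q v.1) / Real.log Y) *
      Real.log ‖∏ j, (1 - α v.1 j * (q v.1 : ℂ) ^ (-(centre i : ℂ)))‖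

/-- `M(Y)` grows more slowly than `exp (ε (log Y)^ρ)`, for all `ε > 0`. -/
def Slow (S : Set (HeightOneSpectrum (𝓞 K))) (i : ℕ)
    (α : HeightOneSpectrum (𝓞 K) → Fin N → ℂ) (ρ ρ' : ℝ) : Prop :=
  ∀ ε : ℝ, 0 < ε → ∃ C : ℝ, ∀ᶠ Y : ℝ in atTop,
    |mean S i α ρ ρ' Y| ≤ C * Real.exp (ε * Real.log Y ^ ρ)

/-- `M(Y) = m log log Y + O(1)`. -/
def Law (S : Set (HeightOneSpectrum (𝓞 K))) (i : ℕ)
    (α : HeightOneSpectrum (𝓞 K) → Fin N → ℂ) (ρ ρ' m : ℝ) : Prop :=
  ∃ C : ℝ, 0 ≤ C ∧ ∀ᶠ Y : ℝ in atTop, |mean S i α ρ ρ' Y - m * Real.log (Real.log Y)| ≤ C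

/-- `|F(c + x)| ≍ x^m` for `0 < x ≤ 1`, `c = (i + 1)/2`. -/
def Size (i : ℕ) (F : ℂ → ℂ) (m : ℝ) : Prop :=
  ∃ A B : ℝ, 0 < A ∧ 0 < B ∧ ∀ x : ℝ, 0 < x → x ≤ 1 →
    A * x ^ m ≤ ‖F (centre i + x)‖ ∧ ‖F (centre i + x)‖ ≤ B * x ^ m

section transfer

variable {S : Set (HeightOneSpectrum (𝓞 K))} {i : ℕ} {α : HeightOneSpectrum (𝓞 K) → Fin N → ℂ}

theorem mean_eq (E : Pool.Agent.TH942.ES.Sys (Q284.M.NN fun v => v ∉ S) (Q284.M.al i α))
    (ρ ρ' Y : ℝ) : mean S i α ρ ρ' Y =
      Pool.Agent.TH942.ES.SrE (Q284.M.NN fun v => v ∉ S) (Q284.M.al i α) ρ ρ' Y := by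
  unfold mean Pool.Agent.TH942.ES.SrE
  refine finsum_congr fun v => finsum_congr fun _ => ?_
  rw [Q284.M.cv_frob E]
  rfl

theorem lfun_eq (s : ℂ) : LFun S α (centre i + s) =
    Pool.Agent.TH942.ES.LE (Q284.M.NN fun v => v ∉ S) (Q284.M.al i α) s :=
  (Q284.M.LE_frob s).symm

theorem zf_to {V U : Set ℂ} (hV : ∀ s : ℂ, s ∈ U ↔ (centre i : ℂ) + s ∈ V) {F : ℂ → ℂ}
    (h : IsZeroFreeContinuation S i α V F) :
    Pool.Agent.TH270.SH.ZF (Q284.M.NN fun v => v ∉ S) (Q284.M.al i α) U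
      (fun s => F (centre i + s)) := by
  obtain ⟨h1, h2⟩ := h
  have hre : ∀ s : ℂ, 1 / 2 < s.re → (i : ℝ) / 2 + 1 < ((centre i : ℂ) + s).re := by
    intro s hs
    rw [Complex.add_re, Complex.ofReal_re]
    unfold centre
    linarith
  refine ⟨fun s hs => ?_, fun s hs => ?_⟩
  · obtain ⟨h3, h4⟩ := h1 (centre i + s) (hs.imp (fun h => (hV s).1 h) (hre s))
    exact ⟨h3.comp s ((differentiableAt_const _).add differentiableAt_id), h4⟩
  · show F (centre i + s) = _
    rw [h2 _ (hre s hs), lfun_eq]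

theorem zf_from {V U : Set ℂ} (hV : ∀ s : ℂ, s ∈ U ↔ (centre i : ℂ) + s ∈ V) {G : ℂ → ℂ}
    (h : Pool.Agent.TH270.SH.ZF (Q284.M.NN fun v => v ∉ S) (Q284.M.al i α) U G) :
    IsZeroFreeContinuation S i α V (fun s => G (s - centre i)) := by
  obtain ⟨h1, h2⟩ := h
  have hre : ∀ s : ℂ, (i : ℝ) / 2 + 1 < s.re → 1 / 2 < (s - (centre i : ℂ)).re := by
    intro s hs
    rw [Complex.sub_re, Complex.ofReal_re]
    unfold centre
    linarith
  refine ⟨fun s hs => ?_, fun s hs => ?_⟩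
  · obtain ⟨h3, h4⟩ := h1 (s - centre i) (hs.imp (fun h => (hV _).2 (by simpa using h)) (hre s))
    exact ⟨h3.comp s (differentiableAt_id.sub (differentiableAt_const _)), h4⟩
  · show G (s - centre i) = _
    rw [h2 _ (hre s hs), ← lfun_eq, add_sub_cancel]

theorem zf_iff {V U : Set ℂ} (hV : ∀ s : ℂ, s ∈ U ↔ (centre i : ℂ) + s ∈ V) :
    (∃ F : ℂ → ℂ, IsZeroFreeContinuation S i α V F) ↔
      ∃ G : ℂ → ℂ, Pool.Agent.TH270.SH.ZF (Q284.M.NN fun v => v ∉ S) (Q284.M.al i α) U G :=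
  ⟨fun ⟨_, h⟩ => ⟨_, zf_to hV h⟩, fun ⟨_, h⟩ => ⟨_, zf_from hV h⟩⟩

theorem mem_angle {ρ : ℝ} (s : ℂ) :
    s ∈ Pool.Agent.TH942.SL.Sect ρ ↔ (centre i : ℂ) + s ∈ angle i ρ := by
  unfold Pool.Agent.TH942.SL.Sect angle
  simp only [Set.mem_ofPred_eq, add_sub_cancel_left]
  refine and_congr_left fun _ => not_congr ?_
  simp

theorem mem_half (s : ℂ) : s ∈ {s : ℂ | 0 < s.re} ↔ (centre i : ℂ) + s ∈ halfPlane i := by
  unfold halfPlane
  simp only [Set.mem_ofPred_eq, Complex.add_re, Complex.ofReal_re, lt_add_iff_pos_right]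

end transfer

/-- **A criterion for the continuation of `L(H^i(X), s)` to the right of the centre.**

Let `X` be a projective variety of dimension `d` over a number field `K`, given by homogeneous
equations, `i ≤ 2 d`, and let `α_{v,1}, …, α_{v,N}` be the eigenvalues of Frobenius on `H^i(X)` for the
primes `v ∉ S`. Let `c = (i + 1)/2`.

1. For `1 < ρ < ρ'`: `L(H^i(X), s)` has a continuation without zeros and poles to the angle
`|arg (s - c)| < π/(2ρ)` if and only if the means `M(Y)` grow more slowly than `exp (ε (log Y)^ρ)`.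
2. It has a continuation without zeros and poles to `Re s > c` if and only if this is so for all
`1 < ρ < ρ'`.
3. If `M(Y) = m log log Y + O(1)` for one pair `1 < ρ < ρ'`, then the continuation to the angle exists
and has the size `x^m` at `c + x`, `x → 0`; if it is so for all pairs, the same holds in `Re s > c`.
4. If `F` is a holomorphic continuation to `Re s > c` which is analytic at `c` and `r` is an integer,
then for each pair `1 < ρ < ρ'` the following are equivalent: `F` has order `r` at `c` and no zeros in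
the angle; `M(Y) = r log log Y + O(1)`; `M(Y) / log log Y → r`. -/
theorem result (K : Type) [Field K] [NumberField K] (n : ℕ)
    (X : Set (MvPolynomial (Fin n) (𝓞 K))) (d i N : ℕ) (hi : i ≤ 2 * d)
    (S : Set (HeightOneSpectrum (𝓞 K))) (α : HeightOneSpectrum (𝓞 K) → Fin N → ℂ)
    (hα : ∀ v, v ∉ S → IsFrobenius X d i v (α v)) :
    (∀ ρ ρ' : ℝ, 1 < ρ → ρ < ρ' →
      (Slow S i α ρ ρ' ↔ ∃ F : ℂ → ℂ, IsZeroFreeContinuation S i α (angle i ρ) F)) ∧
    ((∀ ρ ρ' : ℝ, 1 < ρ → ρ < ρ' → Slow S i α ρ ρ') ↔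
      ∃ F : ℂ → ℂ, IsZeroFreeContinuation S i α (halfPlane i) F) ∧
    (∀ m : ℝ, (∀ ρ ρ' : ℝ, 1 < ρ → ρ < ρ' → Law S i α ρ ρ' m →
        ∃ F : ℂ → ℂ, IsZeroFreeContinuation S i α (angle i ρ) F ∧ Size i F m) ∧
      ((∀ ρ ρ' : ℝ, 1 < ρ → ρ < ρ' → Law S i α ρ ρ' m) →
        ∃ F : ℂ → ℂ, IsZeroFreeContinuation S i α (halfPlane i) F ∧ Size i F m)) ∧
    ∀ F : ℂ → ℂ, (∀ s : ℂ, centre i < s.re → DifferentiableAt ℂ F s) →
      (∀ s : ℂ, (i : ℝ) / 2 + 1 < s.re → F s = LFun S α s) → AnalyticAt ℂ F (centre i : ℂ) →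
      ∀ (ρ ρ' : ℝ) (r : ℕ), 1 < ρ → ρ < ρ' → List.TFAE [
        analyticOrderAt F (centre i : ℂ) = r ∧ ∀ s ∈ angle i ρ, F s ≠ 0,
        Law S i α ρ ρ' r,
        Tendsto (fun Y : ℝ => mean S i α ρ ρ' Y / Real.log (Real.log Y)) atTop (𝓝 (r : ℝ))] := by
  have E := Q284.M.frob_sys (P := fun v => v ∉ S) hα hi
  have hslow : ∀ ρ ρ' : ℝ, Slow S i α ρ ρ' ↔
      Pool.Agent.TH270.SH.Slow (Q284.M.NN fun v => v ∉ S) (Q284.M.al i α) ρ ρ' := by
    intro ρ ρ'
    unfold Slow Pool.Agent.TH270.SH.Slow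
    simp only [mean_eq E]
  have hlaw : ∀ ρ ρ' m : ℝ, Law S i α ρ ρ' m ↔
      Pool.Agent.TH270.SH.Gr (Q284.M.NN fun v => v ∉ S) (Q284.M.al i α) ρ ρ' m := by
    intro ρ ρ' m
    unfold Law Pool.Agent.TH270.SH.Gr
    simp only [mean_eq E]
  have hsize : ∀ (G : ℂ → ℂ) (m : ℝ), Pool.Agent.TH270.SH.Size G m →
      Size i (fun s => G (s - centre i)) m := by
    rintro G m ⟨A, B, hA, hB, h⟩
    refine ⟨A, B, hA, hB, fun x hx hx1 => ?_⟩
    simp only [add_sub_cancel_left]
    exact h x hx hx1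
  refine ⟨fun ρ ρ' h1 h2 => ?_, ?_, fun m => ⟨fun ρ ρ' h1 h2 h => ?_, fun h => ?_⟩,
    fun F hd hL h0 ρ ρ' r h1 h2 => ?_⟩
  · rw [hslow, Pool.Agent.TH270.SH.slow_iff E h1 h2, zf_iff (U := Pool.Agent.TH942.SL.Sect ρ)
      fun s => mem_angle s]
  · simp only [hslow]
    rw [Pool.Agent.TH270.SH.slow_all_iff E, zf_iff (U := {s : ℂ | 0 < s.re}) fun s => mem_half s]
  · obtain ⟨G, h3, h4⟩ := Pool.Agent.TH270.SH.Gr.cont E h1 h2 ((hlaw ρ ρ' m).1 h)
    exact ⟨_, zf_from (fun s => mem_angle s) h3, hsize G m h4⟩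
  · obtain ⟨G, h3, h4⟩ := Pool.Agent.TH270.SH.gr_all E fun ρ ρ' h1 h2 => (hlaw ρ ρ' m).1 (h ρ ρ' h1 h2)
    exact ⟨_, zf_from (fun s => mem_half s) h3, hsize G m h4⟩
  · have hcon : Pool.Agent.TH942.ES.Con (Q284.M.NN fun v => v ∉ S) (Q284.M.al i α)
        (fun s => F (centre i + s)) := by
      refine ⟨fun s hs => ?_, fun s hs => ?_⟩
      · have h3 : DifferentiableAt ℂ F (centre i + s) := hd _ (by
          rw [Complex.add_re, Complex.ofReal_re]
          linarith)
        exact h3.comp s ((differentiableAt_const _).add differentiableAt_id)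
      · have h3 : F (centre i + s) = Pool.Agent.TH942.ES.LE (Q284.M.NN fun v => v ∉ S)
            (Q284.M.al i α) s := by
          rw [hL _ (by
            rw [Complex.add_re, Complex.ofReal_re]
            unfold centre
            linarith), lfun_eq]
        rw [h3, E.LE_eq hs]
        exact E.hasProd hs
    have ha : AnalyticAt ℂ (fun s => F (centre i + s)) 0 := by
      have h3 : AnalyticAt ℂ (fun s : ℂ => (centre i : ℂ) + s) 0 :=
        analyticAt_const.add analyticAt_id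
      exact AnalyticAt.comp (f := fun s : ℂ => (centre i : ℂ) + s) (by simpa using h0) h3
    have hord : analyticOrderAt (fun s => F (centre i + s)) 0 = r ↔
        analyticOrderAt F (centre i : ℂ) = r := by
      rw [← Q284.M.ord_iff h0, ha.meromorphicOrderAt_eq]
      cases hn : analyticOrderAt (fun s => F (centre i + s)) 0 with
      | top => simp
      | coe k =>
        rw [ENat.map_natCast]
        constructor
        · intro h2
          have h4 : k = r := by exact_mod_cast h2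
          rw [h4]
        · intro h2
          have h3 : (k : ℤ) = r := by exact_mod_cast h2
          have h4 : k = r := by exact_mod_cast h3
          rw [h4]
    have hzero : (∀ s ∈ Pool.Agent.TH942.SL.Sect ρ, F (centre i + s) ≠ 0) ↔
        ∀ s ∈ angle i ρ, F s ≠ 0 := by
      constructor
      · intro h s hs
        have h3 := h (s - centre i) ((mem_angle (i := i) _).2 (by simpa using hs))
        rwa [add_sub_cancel] at h3
      · intro h s hs
        exact h _ ((mem_angle s).1 hs)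
    have t := Pool.Agent.TH270.SH.law_tfae E hcon ha h1 h2 r
    rw [hord, hzero, ← hlaw] at t
    have h4 : (fun Y : ℝ => mean S i α ρ ρ' Y / Real.log (Real.log Y)) = fun Y : ℝ =>
        Pool.Agent.TH942.ES.SrE (Q284.M.NN fun v => v ∉ S) (Q284.M.al i α) ρ ρ' Y /
          Real.log (Real.log Y) := by
      funext Y
      rw [mean_eq E]
    rw [h4]
    exact t

end Pool.Agent.Results.MP_039d94_nt.ContinuationCriterion
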