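import Pool.Agent.Q255.SG.QBd
import Pool.Agent.Q255.SG.BohrMain

/-!
# The limit law of the values on the edge of absolute convergence

`X` is a smooth projective variety over `ℚ`, `w` the degree of the cohomology and `N` the dimension
of `H^w(X)`.  The Euler product `L(X, s)` is absolutely convergent for `Re s > w/2 + 1`; nothing is
known in general about its continuation to the edge `Re s = w/2 + 1` or beyond, but it has boundary
values there outside a set of Hausdorff dimension `0`.

We prove a limit theorem of Bohr and Jessen for these boundary values `l(t)`.  Let `L` be the random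
Euler product on the edge, in which the numbers `p^{-it}` are replaced by independent random points
of the unit circle.  For every continuous function `f` on the punctured plane which is at most
`|z|^q + |z|^{-q}` for some `q < 1/N`, the mean value of `f(l(t))` over the window `[a, a + τ]` tends
to the expectation of `f(L)`, uniformly in the window, i.e. in the real number `a`, and uniformly
for all varieties, all weights and all Euler products of rank `N`, of arbitrary conductor.

No continuation, no functional equation and no automorphy is used or assumed.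
-/

set_option autoImplicit false

namespace Pool.Agent.Results.MP_039d94_nt.LimitLawOnTheEdge

open Filter Topology Polynomial MeasureTheory

/-- The polynomials `B p`, `p` prime, are the Euler factors of an `L`-function of rank `N` and weight
`w`: `B_p(z) = ∏_{j < N} (1 - α_j z)` with complex numbers `α_j` (some of them possibly `0`) of
absolute value at most `p^{w/2}`.

For the cohomology `H^w(X)` of a smooth projective variety over `ℚ` and a prime of good reduction the
`α_j` are the eigenvalues of the geometric Frobenius at `p`, of absolute value `p^{w/2}` (Deligne).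
The finitely many Euler factors at the other primes may be omitted (`B p = 1`), or be the usual ones
if the eigenvalues of Frobenius on the inertia invariants have absolute value at most `p^{w/2}`, as
is expected in general. -/
def IsEulerSystem (N : ℕ) (w : ℤ) (B : ℕ → ℂ[X]) : Prop :=
  ∀ p : ℕ, p.Prime → ∃ α : Fin N → ℂ, (∀ j, ‖α j‖ ≤ (p : ℝ) ^ ((w : ℝ) / 2)) ∧
    ∀ z : ℂ, (B p).eval z = ∏ j, (1 - α j * z)

/-- The Euler product `∏_p B_p(p^{-s})⁻¹`. -/
noncomputable def LFun (B : ℕ → ℂ[X]) (s : ℂ) : ℂ :=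
  ∏' p : Nat.Primes, ((B p).eval (((p : ℕ) : ℂ) ^ (-s)))⁻¹

/-- The point `w/2 + 1 + iτ` of the edge of absolute convergence. -/
noncomputable def edgePoint (w : ℤ) (τ : ℝ) : ℂ := (((w : ℝ) / 2 + 1 : ℝ) : ℂ) + (τ : ℂ) * Complex.I

/-- The angle `|s - s_τ| ≤ K (Re s - (w/2 + 1))` at `s_τ = w/2 + 1 + iτ` in the half-plane
`Re s > w/2 + 1`. -/
def angle (w : ℤ) (τ K : ℝ) : Set ℂ :=
  {s : ℂ | (w : ℝ) / 2 + 1 < s.re ∧ ‖s - edgePoint w τ‖ ≤ K * (s.re - ((w : ℝ) / 2 + 1))}

/-- `l` is the boundary function of the `L`-function outside the exceptional set `T`: its values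
there are not zero, and they are the limits of the partial Euler products and of the `L`-function in
every angle. -/
def IsBoundaryFunction (w : ℤ) (B : ℕ → ℂ[X]) (T : Set ℝ) (l : ℝ → ℂ) : Prop :=
  ∀ τ : ℝ, τ ∉ T → l τ ≠ 0 ∧
    Tendsto (fun x : ℕ => ∏ p ∈ Nat.primesBelow x, ((B p).eval ((p : ℂ) ^ (-edgePoint w τ)))⁻¹)
      atTop (𝓝 (l τ)) ∧
    ∀ K : ℝ, Tendsto (LFun B) (𝓝[angle w τ K] (edgePoint w τ)) (𝓝 (l τ))

/-- The probability measure for which the points `θ p ∈ ℝ/ℤ`, `p = 0, 1, 2, …`, are independent and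
uniformly distributed (only the prime numbers `p` matter). -/
noncomputable def uniform : Measure (ℕ → UnitAddCircle) :=
  Measure.infinitePi fun _ => (AddCircle.haarAddCircle : Measure UnitAddCircle)

/-- The random partial Euler product on the edge: the product of `B_p(p^{-(w/2+1)} e(θ_p))⁻¹`, where
`e(θ) = exp(2πiθ)`, over the primes `p < x`. -/
noncomputable def randomProduct (w : ℤ) (B : ℕ → ℂ[X]) (x : ℕ) (θ : ℕ → UnitAddCircle) : ℂ :=
  ∏ p ∈ Nat.primesBelow x,
    ((B p).eval ((((p : ℝ) ^ (-((w : ℝ) / 2 + 1)) : ℝ) : ℂ) * fourier 1 (θ p)))⁻¹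

/-- `L` is the random Euler product on the edge: the limit in probability of the random partial Euler
products. -/
def IsRandomProduct (w : ℤ) (B : ℕ → ℂ[X]) (L : (ℕ → UnitAddCircle) → ℂ) : Prop :=
  TendstoInMeasure uniform (randomProduct w B) atTop L

theorem null_of_dimH {T : Set ℝ} (hT : dimH T = 0) : volume T = 0 := by
  have h1 : (Measure.hausdorffMeasure (1 : ℝ) : Measure ℝ) T = 0 := by
    have := hausdorffMeasure_of_dimH_lt (X := ℝ) (s := T) (d := 1) (by rw [hT]; norm_num)
    simpa using this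
  rw [← MeasureTheory.hausdorffMeasure_real]
  exact h1

theorem exists_alpha {N : ℕ} {w : ℤ} {B : ℕ → ℂ[X]} (hB : IsEulerSystem N w B) :
    ∃ α : ℕ → Fin N → ℂ, Pool.Agent.Q255.SG.Bd (w : ℝ) α ∧
      ∀ p : ℕ, p.Prime → ∀ z : ℂ, (B p).eval z = ∏ j, (1 - α p j * z) := by
  classical
  refine ⟨fun p => if hp : p.Prime then (hB p hp).choose else 0, fun p hp j => ?_,
    fun p hp z => ?_⟩
  · simp only [dif_pos hp]
    exact (hB p hp).choose_spec.1 j
  · simp only [dif_pos hp]
    exact (hB p hp).choose_spec.2 z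

theorem lim_of {N : ℕ} {w : ℤ} {B : ℕ → ℂ[X]} {α : ℕ → Fin N → ℂ}
    (hα : Pool.Agent.Q255.SG.Bd (w : ℝ) α)
    (hB : ∀ p : ℕ, p.Prime → ∀ z : ℂ, (B p).eval z = ∏ j, (1 - α p j * z))
    {T : Set ℝ} {l : ℝ → ℂ} (h : IsBoundaryFunction w B T l) :
    Pool.Agent.Q255.SG.Lim (Pool.Agent.Q255.SG.AP (Pool.Agent.Q255.SG.qAD (w : ℝ) α hα)) T l := by
  intro τ hτ
  refine ⟨(h τ hτ).1, (h τ hτ).2.1.congr fun x => ?_⟩
  rw [← Pool.Agent.Q255.SG.q_partial hα x τ]
  refine Finset.prod_congr rfl fun p hp => ?_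
  rw [hB p (Nat.prime_of_mem_primesBelow hp)]
  rfl

theorem random_eq {N : ℕ} {w : ℤ} {B : ℕ → ℂ[X]} {α : ℕ → Fin N → ℂ}
    (hα : Pool.Agent.Q255.SG.Bd (w : ℝ) α)
    (hB : ∀ p : ℕ, p.Prime → ∀ z : ℂ, (B p).eval z = ∏ j, (1 - α p j * z)) (x : ℕ) :
    randomProduct w B x = Pool.Agent.Q255.SG.RP (w : ℝ) α x := by
  funext θ
  rw [← Pool.Agent.Q255.SG.GP_toK hα]
  unfold randomProduct Pool.Agent.Q255.SG.GP
  refine Finset.prod_congr rfl fun p hp => ?_
  have hp' := Nat.prime_of_mem_primesBelow hp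
  have hp0 : (0 : ℝ) < p := by exact_mod_cast hp'.pos
  rw [hB p hp', ← Finset.prod_inv_distrib]
  refine Finset.prod_congr rfl fun j _ => ?_
  unfold Pool.Agent.Q255.SG.toK Pool.Agent.Q255.SG.bt
  simp only [hp', dite_true]
  congr 2
  have e : ((p : ℝ) ^ (-((w : ℝ) / 2 + 1)) : ℝ) = (p : ℝ) ^ (-((w : ℝ) / 2)) / p := by
    rw [neg_add, Real.rpow_add hp0, Real.rpow_neg_one]
    exact (div_eq_mul_inv _ _).symm
  rw [e]
  push_cast
  ring

/-- **The limit law of the values on the edge.**  Let `N ≥ 1`.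

1. Every Euler product of rank `N` and weight `w` has a boundary function on the line
`Re s = w/2 + 1`, outside a set of Hausdorff dimension `0`, and the random Euler product on the edge
exists and is not zero.
2. Let `0 ≤ q < 1/N`, let `f` be a real continuous function on the punctured plane with
`|f(z)| ≤ |z|^q + |z|^{-q}`, and let `ε > 0`.  There is a length `τ₀ > 0` such that
`|(1/τ) ∫_a^{a+τ} f(l(t)) dt - E f(L)| ≤ ε` for all windows `[a, a + τ]` of length `τ ≥ τ₀`, for all
weights and all Euler products of rank `N`, with any boundary function `l` and the random Euler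
product `L`.  In particular (`f` bounded) the values `l(t)` have a limiting distribution, the law of
`L`, and the moments of all real orders `q` with `|q| < 1/N` converge to those of `L`. -/
theorem result (N : ℕ) (hN : 1 ≤ N) :
    (∀ (w : ℤ) (B : ℕ → ℂ[X]), IsEulerSystem N w B →
      (∃ T : Set ℝ, dimH T = 0 ∧ ∃ l : ℝ → ℂ, IsBoundaryFunction w B T l) ∧
      ∃ L : (ℕ → UnitAddCircle) → ℂ, Measurable L ∧ (∀ θ, L θ ≠ 0) ∧ IsRandomProduct w B L) ∧
    ∀ q : ℝ, 0 ≤ q → q < 1 / N → ∀ f : ℂ → ℝ, ContinuousOn f {0}ᶜ →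
      (∀ z : ℂ, z ≠ 0 → |f z| ≤ ‖z‖ ^ q + ‖z‖ ^ (-q)) → ∀ ε : ℝ, 0 < ε →
      ∃ τ₀ : ℝ, 0 < τ₀ ∧ ∀ (w : ℤ) (B : ℕ → ℂ[X]), IsEulerSystem N w B →
        ∀ T : Set ℝ, dimH T = 0 → ∀ l : ℝ → ℂ, IsBoundaryFunction w B T l →
        ∀ L : (ℕ → UnitAddCircle) → ℂ, IsRandomProduct w B L →
        Integrable (fun θ => f (L θ)) uniform ∧ ∀ a τ : ℝ, τ₀ ≤ τ →
          IntervalIntegrable (fun t => f (l t)) volume a (a + τ) ∧
          |τ⁻¹ * (∫ t in a..(a + τ), f (l t)) - ∫ θ, f (L θ) ∂uniform| ≤ ε := by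
  have hN0 : (0 : ℝ) < N := by exact_mod_cast hN
  refine ⟨fun w B hB => ⟨?_, ?_⟩, fun q hq hqN f hf hg ε hε => ?_⟩
  · obtain ⟨α, hα, hBα⟩ := exists_alpha hB
    obtain ⟨T, hT, h⟩ := Pool.Agent.Q255.SG.boundary_q hα
    have h' : ∀ τ : ℝ, ∃ l : ℂ, τ ∉ T → l ≠ 0 ∧
        Tendsto (fun x : ℕ => ∏ p ∈ Nat.primesBelow x,
          ((B p).eval ((p : ℂ) ^ (-edgePoint w τ)))⁻¹) atTop (𝓝 l) ∧
        ∀ K : ℝ, Tendsto (LFun B) (𝓝[angle w τ K] (edgePoint w τ)) (𝓝 l) := by
      intro τ
      by_cases hτ : τ ∈ T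
      · exact ⟨0, fun h => absurd hτ h⟩
      · obtain ⟨l, h1, h2, h3⟩ := h τ hτ
        refine ⟨l, fun _ => ⟨h1, h2.congr fun x => ?_, fun K => (h3 K).congr fun s => ?_⟩⟩
        · refine Finset.prod_congr rfl fun p hp => ?_
          rw [hBα p (Nat.prime_of_mem_primesBelow hp)]
          rfl
        · refine tprod_congr fun p => ?_
          rw [hBα p p.2]
    choose l hl using h'
    exact ⟨T, hT, l, hl⟩
  · obtain ⟨α, hα, hBα⟩ := exists_alpha hB
    obtain ⟨L, h1, h2, h3⟩ := Pool.Agent.Q255.SG.exists_prod hα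
    refine ⟨L, h1, h2, ?_⟩
    have e : randomProduct w B = fun x => Pool.Agent.Q255.SG.RP (w : ℝ) α x := by
      funext x
      exact random_eq hα hBα x
    unfold IsRandomProduct
    rw [e]
    exact h3
  · obtain ⟨T0, hT0, h⟩ := Pool.Agent.Q255.SG.bohr_jessen N hq (by
      rw [lt_div_iff₀ hN0] at hqN
      exact hqN) hf hg hε
    refine ⟨T0, hT0, fun w B hB T hT l hl L hL => ?_⟩
    obtain ⟨α, hα, hBα⟩ := exists_alpha hB
    have e : randomProduct w B = fun x => Pool.Agent.Q255.SG.RP (w : ℝ) α x := by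
      funext x
      exact random_eq hα hBα x
    unfold IsRandomProduct at hL
    rw [e] at hL
    exact h w α hα T (null_of_dimH hT) l (lim_of hα hBα hl) L hL

end Pool.Agent.Results.MP_039d94_nt.LimitLawOnTheEdge
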