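import Pool.Agent.Q5.VL.Deg

/-!
# Continuation of the L-functions of varieties: from thin families of number fields to all

`X` is a smooth projective variety of dimension `d` over a number field `K`, `i ≤ 2 d`, and `F` runs
through finite extensions of `K`; the variety `X_F`, seen as a variety over `ℚ`, is smooth and projective,
and `L(H^i(X_F), s)` is its `L`-function.  The Frobenius eigenvalues `IsFrobenius` and the Euler product
`LFun` are those of `Pool.Agent.W353.EF.Defs`.
-/

set_option autoImplicit false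

namespace Pool.Agent.Results.MP_039d94_nt.WideFamilies

open NumberField IsDedekindDomain Filter Polynomial
open Pool.Agent.W353.EF (IsFrobenius LFun)

/-- The polynomials `B v` are the Euler factors of `L(H^i(X_F), s)`: `B_v(z) = ∏ (1 - α_j z)` for almost
all primes `v` of `F`, where `α_1, …, α_N` are the eigenvalues of the Frobenius at `v` on `H^i`, and
`B_v(z)` is an arbitrary polynomial with `B_v(0) = 1` at the other primes. -/
def IsEulerSystem {K : Type} [Field K] {n : ℕ} (X : Set (MvPolynomial (Fin n) (𝓞 K))) (d i N : ℕ)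
    {F : Type} [Field F] [NumberField F] [Algebra K F] (B : HeightOneSpectrum (𝓞 F) → ℂ[X]) : Prop :=
  (∀ᶠ v in cofinite, ∃ α : Fin N → ℂ, IsFrobenius X d i v α ∧
    ∀ z : ℂ, (B v).eval z = ∏ j, (1 - α j * z)) ∧
  ∀ v, (B v).eval 0 = 1

/-- `L(H^i(X_F), s)^t` has a meromorphic continuation to `Ω`, for every choice of the Euler factors at the
bad primes. -/
def Continues (Ω : Set ℂ) {K : Type} [Field K] {n : ℕ} (X : Set (MvPolynomial (Fin n) (𝓞 K)))
    (d i N : ℕ) (F : Type) [Field F] [NumberField F] [Algebra K F] (t : ℕ) : Prop :=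
  ∀ B : HeightOneSpectrum (𝓞 F) → ℂ[X], IsEulerSystem X d i N B →
    ∃ f : ℂ → ℂ, MeromorphicOn f Ω ∧ ∃ c : ℝ, ∀ s : ℂ, c < s.re → f s = LFun B s ^ t

/-- `L(H^i(X_F), s)` has a holomorphic continuation without zeros to `Ω`, for every choice of the Euler
factors at the bad primes for which no Euler factor has a pole in `Ω`. -/
def ZeroFree (Ω : Set ℂ) {K : Type} [Field K] {n : ℕ} (X : Set (MvPolynomial (Fin n) (𝓞 K)))
    (d i N : ℕ) (F : Type) [Field F] [NumberField F] [Algebra K F] : Prop :=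
  ∀ B : HeightOneSpectrum (𝓞 F) → ℂ[X], IsEulerSystem X d i N B →
    (∀ v, ∀ s ∈ Ω, (B v).eval (((Ideal.absNorm v.asIdeal : ℕ) : ℂ) ^ (-s)) ≠ 0) →
    ∃ f : ℂ → ℂ, DifferentiableOn ℂ f Ω ∧ (∀ s ∈ Ω, f s ≠ 0) ∧
      ∃ c : ℝ, ∀ s : ℂ, c < s.re → f s = LFun B s

/-- `Ω` is an open and simply connected subset of the half plane `Re s > i/2`, and it contains some half
plane `Re s > c`.  Examples are the half planes `Re s > σ` with `σ ≥ i/2`, also without the points
`s ≤ i/2 + 1` of the real axis. -/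
def IsRegion (i : ℕ) (Ω : Set ℂ) : Prop :=
  IsOpen Ω ∧ IsSimplyConnected Ω ∧ (∀ s ∈ Ω, (i : ℝ) / 2 < s.re) ∧
    ∃ c : ℝ, ∀ s : ℂ, c < s.re → s ∈ Ω

/-- A family of finite extensions of `K` inside the algebraic closure is wide if it is closed under
passing to larger finite extensions, and every automorphism of the algebraic closure over `K` fixes all
elements of some member of the family. -/
def Wide (K : Type) [Field K] (𝓕 : Set (IntermediateField K (AlgebraicClosure K))) : Prop :=
  (∀ F ∈ 𝓕, FiniteDimensional K F) ∧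
  (∀ F ∈ 𝓕, ∀ F' : IntermediateField K (AlgebraicClosure K), FiniteDimensional K F' → F ≤ F' →
    F' ∈ 𝓕) ∧
  ∀ σ : AlgebraicClosure K ≃ₐ[K] AlgebraicClosure K, ∃ F ∈ 𝓕, ∀ x ∈ F, σ x = x

/-- `F` is generated over `K` by finitely many `p`-th roots of positive integers all of whose prime
factors belong to `T`, and `p ^ k` divides the degree of `F/K`. -/
def TestField (T : Set ℕ) (p k : ℕ) (K F : Type) [Field K] [Field F] [Algebra K F] : Prop :=
  (∃ S : Set F, S.Finite ∧
    (∀ x ∈ S, ∃ c : ℕ, c ≠ 0 ∧ (∀ l : ℕ, l.Prime → l ∣ c → l ∈ T) ∧ x ^ p = (c : F)) ∧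
    IntermediateField.adjoin K S = ⊤) ∧
  p ^ k ∣ Module.finrank K F

/-- A set of positive integers closed under multiples, with greatest common divisor `1`; for example
the multiples of `10^100` together with the multiples of `3^100`, or all `n ≥ 10^100`. -/
def IsSparse (D : Set ℕ) : Prop :=
  (∀ d ∈ D, ∀ n : ℕ, 0 < n → d * n ∈ D) ∧ ∀ g : ℕ, (∀ d ∈ D, g ∣ d) → g = 1

/-- The law for wide families. -/
def WideLaw : Prop :=
  ∀ (K : Type) [Field K] [NumberField K] (𝓕 : Set (IntermediateField K (AlgebraicClosure K))),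
    Wide K 𝓕 → ∃ m : ℕ, 0 < m ∧
      ∀ (n : ℕ) (X : Set (MvPolynomial (Fin n) (𝓞 K))) (d i N : ℕ), i ≤ 2 * d → ∀ Ω : Set ℂ,
        ((∀ F ∈ 𝓕, ∀ [NumberField F], Continues Ω X d i N F 1) → Continues Ω X d i N K m) ∧
        (IsRegion i Ω → (∀ F ∈ 𝓕, ∀ [NumberField F], ZeroFree Ω X d i N F) →
          ZeroFree Ω X d i N K)

/-- The law for the test fields of `p`, `k` and `T`. -/
def TestLaw : Prop :=
  ∀ (p k : ℕ) (T : Set ℕ), p.Prime → (∀ l ∈ T, l.Prime) → T.Infinite →
    ∀ (K : Type) [Field K] [NumberField K] (n : ℕ) (X : Set (MvPolynomial (Fin n) (𝓞 K)))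
      (d i N : ℕ), i ≤ 2 * d → ∀ Ω : Set ℂ,
      ((∀ (F : Type) [Field F] [NumberField F] [Algebra K F], TestField T p k K F →
        Continues Ω X d i N F 1) → Continues Ω X d i N K (p ^ k)) ∧
      (IsRegion i Ω → (∀ (F : Type) [Field F] [NumberField F] [Algebra K F], TestField T p k K F →
        ZeroFree Ω X d i N F) → ZeroFree Ω X d i N K)

/-- Counterexamples to the continuation spread. -/
def SpreadLaw : Prop :=
  ∀ (K : Type) [Field K] [NumberField K] (n : ℕ) (X : Set (MvPolynomial (Fin n) (𝓞 K)))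
    (d i N : ℕ), i ≤ 2 * d → ∀ Ω : Set ℂ, ¬ Continues Ω X d i N K 1 →
    ∃ p₀ : ℕ, ∀ (p k : ℕ) (T : Set ℕ), p.Prime → p ≠ p₀ → (∀ l ∈ T, l.Prime) → T.Infinite →
      ∃ (F : Type) (_ : Field F) (_ : NumberField F) (_ : Algebra K F), TestField T p k K F ∧
        ¬ Continues Ω X d i N F 1

/-- The law for the degrees. -/
def DegreeLaw : Prop :=
  ∀ (K : Type) [Field K] [NumberField K] (n : ℕ) (X : Set (MvPolynomial (Fin n) (𝓞 K)))
    (d i N : ℕ), i ≤ 2 * d → ∀ Ω : Set ℂ,
    (∀ D : Set ℕ, IsSparse D →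
      (∀ (F : Type) [Field F] [NumberField F] [Algebra K F], Module.finrank K F ∈ D →
        Continues Ω X d i N F 1) →
      ∀ (F : Type) [Field F] [NumberField F] [Algebra K F], Continues Ω X d i N F 1) ∧
    ∀ M : ℕ, 0 < M →
      ((∀ (F : Type) [Field F] [NumberField F] [Algebra K F], M ∣ Module.finrank K F →
        Continues Ω X d i N F 1) →
      ∀ (F : Type) [Field F] [NumberField F] [Algebra K F],
        Continues Ω X d i N F (M / M.gcd (Module.finrank K F))) ∧
      (IsRegion i Ω → (∀ (F : Type) [Field F] [NumberField F] [Algebra K F],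
        M ∣ Module.finrank K F → ZeroFree Ω X d i N F) →
      ∀ (F : Type) [Field F] [NumberField F] [Algebra K F], ZeroFree Ω X d i N F)

/-- All varieties over the number fields whose degree belongs to a given set. -/
def AbsoluteLaw : Prop :=
  ∀ (d i N : ℕ), i ≤ 2 * d → ∀ Ω : Set ℂ,
    (∀ D : Set ℕ, IsSparse D →
      (∀ (F : Type) [Field F] [NumberField F], Module.finrank ℚ F ∈ D →
        ∀ (n : ℕ) (X : Set (MvPolynomial (Fin n) (𝓞 F))), Continues Ω X d i N F 1) →
      ∀ (F : Type) [Field F] [NumberField F] (n : ℕ) (X : Set (MvPolynomial (Fin n) (𝓞 F))),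
        Continues Ω X d i N F 1) ∧
    ∀ M : ℕ, 0 < M → IsRegion i Ω →
      (∀ (F : Type) [Field F] [NumberField F], M ∣ Module.finrank ℚ F →
        ∀ (n : ℕ) (X : Set (MvPolynomial (Fin n) (𝓞 F))), ZeroFree Ω X d i N F) →
      ∀ (F : Type) [Field F] [NumberField F] (n : ℕ) (X : Set (MvPolynomial (Fin n) (𝓞 F))),
        ZeroFree Ω X d i N F

section
variable {K : Type} [Field K] {n : ℕ} {X : Set (MvPolynomial (Fin n) (𝓞 K))} {d i N : ℕ}
  {F : Type} [Field F] [NumberField F] [Algebra K F] {Ω : Set ℂ}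

theorem continues_iff (t : ℕ) : Continues Ω X d i N F t ↔
    ∀ B : HeightOneSpectrum (𝓞 F) → ℂ[X], Pool.Agent.Q5.VL.IsSys X d i N B →
      Pool.Agent.Q5.VL.PowL Ω B (t : ℤ) := by
  unfold Continues Pool.Agent.Q5.VL.PowL
  simp only [zpow_natCast]
  rfl

theorem continues_iff_one : Continues Ω X d i N F 1 ↔
    ∀ B : HeightOneSpectrum (𝓞 F) → ℂ[X], Pool.Agent.Q5.VL.IsSys X d i N B →
      Pool.Agent.Q5.VL.PowL Ω B 1 := by
  rw [continues_iff, Nat.cast_one]

theorem zeroFree_iff : ZeroFree Ω X d i N F ↔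
    ∀ B : HeightOneSpectrum (𝓞 F) → ℂ[X], Pool.Agent.Q5.VL.IsSys X d i N B →
      Pool.Agent.Q5.VL.PF Ω B → Pool.Agent.Q5.VL.ZF Ω B := Iff.rfl

/-- the equations over the larger field -/
noncomputable def up (F : Type) [Field F] [Algebra K F] (X : Set (MvPolynomial (Fin n) (𝓞 K))) :
    Set (MvPolynomial (Fin n) (𝓞 F)) := (MvPolynomial.map (algebraMap (𝓞 K) (𝓞 F))) '' X

theorem frob_iff (v : HeightOneSpectrum (𝓞 F)) (α : Fin N → ℂ) :
    IsFrobenius (up F X) d i v α ↔ IsFrobenius X d i v α := by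
  unfold IsFrobenius
  have h0 : @algebraMap (𝓞 F) (𝓞 F) _ _ (inst_ringOfIntegersAlgebra F F) =
      RingHom.id (𝓞 F) := by
    ext x
    rfl
  have h1 : ∀ (κ : Type) [Field κ] (φ : 𝓞 F →+* κ),
      Pool.Agent.W353.EF.cone (up F X) (φ.comp
        (@algebraMap (𝓞 F) (𝓞 F) _ _ (inst_ringOfIntegersAlgebra F F))) =
      Pool.Agent.W353.EF.cone X (φ.comp (algebraMap (𝓞 K) (𝓞 F))) := by
    intro κ _ φ
    rw [h0]
    unfold Pool.Agent.W353.EF.cone up
    congr 1
    refine congrArg _ (funext fun u => ?_)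
    simp only [Set.forall_mem_image, MvPolynomial.eval₂_map, RingHom.comp_id]
  constructor
  · rintro ⟨β, h2, h3, h4⟩
    refine ⟨β, h2, h3, fun κ _ _ φ e hk hc => ?_⟩
    rw [← h1 κ φ]
    exact h4 κ φ e hk hc
  · rintro ⟨β, h2, h3, h4⟩
    refine ⟨β, h2, h3, fun κ _ _ φ e hk hc => ?_⟩
    refine Eq.trans ?_ (h4 κ φ e hk hc)
    exact congrArg _ (h1 κ φ)

theorem sys_iff (B : HeightOneSpectrum (𝓞 F) → ℂ[X]) :
    IsEulerSystem (up F X) d i N B ↔ IsEulerSystem X d i N B := by
  unfold IsEulerSystem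
  simp only [frob_iff]

theorem continues_up (F : Type) [Field F] [NumberField F] [Algebra K F] (t : ℕ) :
    Continues Ω (up F X) d i N F t ↔ Continues Ω X d i N F t := by
  unfold Continues
  simp only [sys_iff]

theorem zeroFree_up (F : Type) [Field F] [NumberField F] [Algebra K F] :
    ZeroFree Ω (up F X) d i N F ↔ ZeroFree Ω X d i N F := by
  unfold ZeroFree
  simp only [sys_iff]

end

/-- **Continuation in thin families of number fields implies continuation in general.**  Let `K` be a
number field, `X` a smooth projective variety over `K` of dimension `d`, `i ≤ 2 d`, and `Ω` a set; in the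
statements about continuations without zeros `Ω` is a region: open, simply connected, contained in
`Re s > i/2`, and containing some half plane `Re s > c`.
1. Let `𝓕` be a wide family of finite extensions of `K`.  There is `m > 0`, depending only on `𝓕`, such
that, for all `X`, `i`, `Ω`: if `L(H^i(X_F), s)` has a meromorphic continuation to `Ω` for all `F` in `𝓕`,
then `L(H^i(X), s)^m` has one; and if `L(H^i(X_F), s)` has a continuation without zeros to the region `Ω`
for all `F` in `𝓕`, then `L(H^i(X), s)` has one.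
2. The intersection of two wide families is wide, and the extensions of degree divisible by `M` form a wide
family.
3. The same with the test fields of a prime `p`, a number `k` and an infinite set `T` of primes in place of
`𝓕`, and `m = p^k`.
4. Counterexamples spread: if `L(H^i(X), s)` has no meromorphic continuation to `Ω`, then for all primes `p`
with at most one exception, all `k` and all infinite sets `T` of primes there is a test field `F` such that
`L(H^i(X_F), s)` has none.
5. If `L(H^i(X_F), s)` has a meromorphic continuation to `Ω` for all `F/K` with `[F:K] ∈ D`, it has one for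
all `F/K`.  If it has one for all `F/K` with `M ∣ [F:K]`, then for all `F/K` its power with the exponent
`M / gcd(M, [F:K])` has one.  If it has a continuation without zeros to the region `Ω` for all `F/K` with
`M ∣ [F:K]`, it has one for all `F/K`.
6. If the continuations exist for all varieties over the number fields of degree in `D`, they exist for all
varieties over all number fields; if the continuations without zeros exist for all varieties over the number
fields of degree divisible by `M`, they exist for all varieties over all number fields. -/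
theorem result :
    WideLaw ∧
    (∀ (K : Type) [Field K] [NumberField K],
      (∀ 𝓕 𝓖 : Set (IntermediateField K (AlgebraicClosure K)), Wide K 𝓕 → Wide K 𝓖 →
        Wide K (𝓕 ∩ 𝓖)) ∧
      ∀ M : ℕ, 0 < M → Wide K {F | FiniteDimensional K F ∧ M ∣ Module.finrank K F}) ∧
    TestLaw ∧ SpreadLaw ∧ DegreeLaw ∧ AbsoluteLaw := by
  have test : TestLaw := by
    intro p k T hp hT hinf K _ _ n X d i N hi Ω
    have hpf : Fact p.Prime := ⟨hp⟩
    refine ⟨fun h => ?_, ?_⟩
    · rw [continues_iff]
      exact Pool.Agent.Q5.VL.power_law_radical hi p hT hinf k (fun F _ _ _ hr hd =>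
        continues_iff_one.1 (h F ⟨hr, hd⟩)) k K (Pool.Agent.Q5.BR.isRadical_self T p K)
        (dvd_mul_left _ _)
    · rintro ⟨hΩ, hsc, hΩi, c₁, hc₁⟩ h
      exact Pool.Agent.Q5.VL.zf_law_radical hi hΩ hsc hc₁ hΩi p hT hinf k (fun F _ _ _ hr hd =>
        h F ⟨hr, hd⟩) k K (Pool.Agent.Q5.BR.isRadical_self T p K) (dvd_mul_left _ _)
  have deg : DegreeLaw := by
    intro K _ _ n X d i N hi Ω
    refine ⟨fun D hD h F _ _ _ => ?_, fun M hM => ⟨fun h F _ _ _ => ?_, ?_⟩⟩
    · rw [continues_iff_one]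
      exact Pool.Agent.Q5.VL.sparse_law hi hD.1 hD.2 (fun F _ _ _ hF =>
        continues_iff_one.1 (h F hF)) F
    · rw [continues_iff]
      refine Pool.Agent.Q5.VL.power_law hi (M := M) (fun F _ _ _ hF =>
        continues_iff_one.1 (h F hF)) (M / M.gcd (Module.finrank K F)) F ?_
      refine ⟨Module.finrank K F / M.gcd (Module.finrank K F), ?_⟩
      rw [← Nat.mul_div_assoc _ (Nat.gcd_dvd_left _ _), ← Nat.mul_div_assoc _
        (Nat.gcd_dvd_right _ _), mul_comm]
    · rintro ⟨hΩ, hsc, hΩi, c₁, hc₁⟩ h F _ _ _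
      exact Pool.Agent.Q5.VL.zf_law hi hΩ hsc hc₁ hΩi hM (fun F _ _ _ hF => h F hF) F
  refine ⟨?_, fun K _ _ => ⟨fun 𝓕 𝓖 h1 h2 => Pool.Agent.Q5.HR.Wide.inter h1 h2, fun M hM =>
    Pool.Agent.Q5.HR.wide_deg hM⟩, test, ?_, deg, ?_⟩
  · intro K _ _ 𝓕 hF
    obtain ⟨m, hm, hlaw⟩ := Pool.Agent.Q5.VL.wide_mer (K := K) hF
    refine ⟨m, hm, fun n X d i N hi Ω => ⟨fun h => ?_, ?_⟩⟩
    · rw [continues_iff]
      have h1 := hlaw n X d i N hi Ω 1 (fun F hF' _ => continues_iff_one.1 (h F hF'))
      rw [mul_one] at h1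
      exact h1
    · rintro ⟨hΩ, hsc, hΩi, c₁, hc₁⟩ h B hB hPF
      exact Pool.Agent.Q5.VL.wide_zf hF hi hΩ hsc hc₁ hΩi (fun F hF' _ => h F hF') hB hPF
  · intro K _ _ n X d i N hi Ω hnot
    by_contra hcon
    push Not at hcon
    obtain ⟨p, k, T, hp, -, hT, hinf, h⟩ := hcon 0
    obtain ⟨q, k', T', hq, hqp, hT', hinf', h'⟩ := hcon p
    have h1 := (test p k T hp hT hinf K n X d i N hi Ω).1 (fun F _ _ _ hF => h F _ _ _ hF)
    have h2 := (test q k' T' hq hT' hinf' K n X d i N hi Ω).1 (fun F _ _ _ hF => h' F _ _ _ hF)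
    apply hnot
    rw [continues_iff] at h1 h2
    rw [continues_iff_one]
    intro B hB
    refine Pool.Agent.Q5.VL.powL_one_of hB (D := {p ^ k, q ^ k'}) (fun g hg => ?_) ?_
    · have h4 := hg (p ^ k) (by simp)
      have h5 := hg (q ^ k') (by simp)
      have h6 : Nat.Coprime (p ^ k) (q ^ k') :=
        Nat.Coprime.pow _ _ ((Nat.coprime_primes hp hq).2 hqp.symm)
      exact Nat.eq_one_of_dvd_coprimes h6 h4 h5
    · rintro d (rfl | rfl)
      · exact h1 B hB
      · exact h2 B hB
  · intro d i N hi Ω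
    refine ⟨fun D hD h F _ _ n X => ?_, fun M hM hΩ h F _ _ n X => ?_⟩
    · refine (deg F n X d i N hi Ω).1 D hD (fun F' _ _ _ hF' => ?_) F
      rw [← continues_up]
      refine h F' ?_ n (up F' X)
      rw [← Module.finrank_mul_finrank ℚ F F', mul_comm]
      exact hD.1 _ hF' _ Module.finrank_pos
    · refine ((deg F n X d i N hi Ω).2 M hM).2 hΩ (fun F' _ _ _ hF' => ?_) F
      rw [← zeroFree_up]
      refine h F' ?_ n (up F' X)
      rw [← Module.finrank_mul_finrank ℚ F F']
      exact hF'.mul_left _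

end Pool.Agent.Results.MP_039d94_nt.WideFamilies
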