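import Pool.Agent.Q54.ZE.Lfun2
import Pool.Agent.Q54.ZE.Net
import Pool.Agent.Q27.BG2.Flat

/-!
# The Hasse-Weil conjecture in dimension `n` and matrices with entries `0` and `1`

Let `S` be a set of complex numbers which is invariant under translation by `1`, for example the set
of all complex numbers, or the set of all `s` such that `2 Re s` is an integer. We show, without any
hypothesis, that for every `n` the following statements are equivalent:

* the zeta functions of all schemes of finite type over `ℤ` with fibres of dimension at most `n` over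
  `Spec ℤ` are meromorphic in the plane with all zeros and poles in `S`;
* this is true for the domains which are smooth over `ℤ` or over a prime field;
* this is true for the smooth affine cubic hypersurfaces `T(x, y, z) = 1` over `ℤ`, for all integral
  trilinear forms `T` with at most `n + 2` variables in one of the three blocks;
* this is true for the functions `exp (∑_p ∑_m N_A(p^m) p^(-m s) / m)`, for all lists
  `A = (A_0, ..., A_(n+1))` of matrices with entries `0` and `1` of the same format, where `N_A(q)` is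
  the number of pairs `(y, z)` of vectors over the field with `q` elements such that
  `(∑ z_k A_k) y = 0`.

If they are true, then the same is true for the zeta functions of all flat integral schemes of
dimension at most `n + 1`, and the L-functions of the interesting cohomology groups of schemes over
`ℤ[1/N]` with fibres of dimension at most `n` are meromorphic in the plane with all zeros and poles in
`S`: for `n = 1` for instance the L-functions of `H^1` of all smooth projective curves over number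
fields.
-/

set_option autoImplicit false

namespace Pool.Agent.Results.MP_039d94_nt.ZeroOneMatrices

open Q54.ZE Q54.CU CategoryTheory AlgebraicGeometry Pool.Agent.Y116.UV Pool.Agent.Z125.UN
open Pool.Agent.Q27.BG Pool.Agent.Q27.BG2

/-- `L` is, on some right half-plane, equal to a meromorphic function in the plane all of whose zeros
and poles are in `S`. -/
def ContinuesIn (S : Set ℂ) (L : ℂ → ℂ) : Prop :=
  ∃ F : ℂ → ℂ, (MeromorphicOn F Set.univ ∧ ∀ s ∉ S, meromorphicOrderAt F s = 0) ∧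
    ∃ σ : ℝ, ∀ s : ℂ, σ < s.re → F s = L s

/-- The zeta function of the scheme `X`. -/
noncomputable def zeta (X : Scheme.{0}) (s : ℂ) : ℂ :=
  ∏' x : {x : X // IsClosed ({x} : Set X)}, (1 - ((Nat.card (X.residueField x.1) : ℂ) ^ (-s)))⁻¹

/-- The zeta functions of all schemes of finite type over `ℤ` with fibres of dimension at most `n`. -/
def AllSchemes (S : Set ℂ) (n : ℕ) : Prop :=
  ∀ (X : Scheme.{0}) (f : X ⟶ Spec (CommRingCat.of ℤ)),
    LocallyOfFiniteType f → QuasiCompact f → FibLE n f → ContinuesIn S (zeta X)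

/-- The zeta functions of the domains which are smooth over `ℤ` or over the field with `p` elements,
with fibres of dimension at most `n` over `ℤ`. -/
def SmoothDomains (S : Set ℂ) (n : ℕ) : Prop :=
  ∀ (A : Type) [CommRing A] [IsDomain A],
    (Algebra.Smooth ℤ A ∨ ∃ (p : ℕ) (_ : Fact p.Prime) (_ : Algebra (ZMod p) A),
      Algebra.Smooth (ZMod p) A) →
    FibLE n (Spec.map (CommRingCat.ofHom (algebraMap ℤ A))) →
      ContinuesIn S (zeta (Spec (CommRingCat.of A)))

/-- The zeta functions of the hypersurfaces `T(x, y, z) = 1` over `ℤ`, where `T` is any trilinear form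
with at most `c` variables in one of the three blocks. -/
def Blocks (S : Set ℂ) (c : ℕ) : Prop :=
  ∀ (l m n : ℕ) (T : Fin l → Fin m → Fin n → ℤ), l ≤ c ∨ m ≤ c ∨ n ≤ c →
    ContinuesIn S (zeta (hypS T).left)

/-- The functions of the lists of `c` matrices with entries `0` and `1`. -/
def ZeroOneNets (S : Set ℂ) (c : ℕ) : Prop :=
  ∀ (a b : ℕ) (A : Fin c → Matrix (Fin a) (Fin b) ℤ), (∀ k i j, A k i j = 0 ∨ A k i j = 1) →
    ContinuesIn S (netZeta A)

/-- The zeta functions of all flat integral schemes of finite type over `ℤ` of dimension at most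
`d`. -/
def FlatSchemes (S : Set ℂ) (d : ℕ) : Prop :=
  ∀ (X : Scheme.{0}) (f : X ⟶ Spec (CommRingCat.of ℤ)), LocallyOfFiniteType f → QuasiCompact f →
    IsIntegral X → Flat f → topologicalKrullDim X ≤ d → ContinuesIn S (zeta X)

/-- `f : X ⟶ Spec ℤ[1/N]` is of finite type with fibres of dimension at most `n`. -/
def IsModel (n : ℕ) {N : ℕ} {X : Scheme.{0}} (f : X ⟶ Spec (CommRingCat.of (ZN N))) : Prop :=
  LocallyOfFiniteType f ∧ QuasiCompact f ∧
    FibLE n (f ≫ Spec.map (CommRingCat.ofHom (algebraMap ℤ (ZN N))))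

/-- The numbers of points of `X` are `#X(𝔽_q) = ∑_l c_l q^(t_l) #Y_l(𝔽_q) + ε ∑_k α_{p,k}^m` for all
`q = p^m` with `p` prime to `N`. -/
def PointsAre (N : ℕ) (X : Scheme.{0}) {b r : ℕ} (Y : Fin r → Scheme.{0}) (c : Fin r → ℤ)
    (t : Fin r → ℕ) (ε : ℤ) (α : Nat.Primes → Fin b → ℂ) : Prop :=
  ∀ x : Nat.Primes × ℕ, ¬ x.1.1 ∣ N → (ptCount X x : ℂ) =
    ∑ l, (c l : ℂ) * (x.1.1 : ℂ) ^ ((x.2 + 1) * t l) * ptCount (Y l) x +
      ε * ∑ k, α x.1 k ^ (x.2 + 1)

/-- The L-functions of the interesting cohomology groups of schemes over `ℤ[1/N]` with fibres of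
dimension at most `n`. -/
def LFunctions (S : Set ℂ) (n : ℕ) : Prop :=
  ∀ (N : ℕ) (X : Scheme.{0}) (f : X ⟶ Spec (CommRingCat.of (ZN N))), IsModel n f →
    ∀ (b r : ℕ) (Y : Fin r → Scheme.{0}) (g : ∀ l, Y l ⟶ Spec (CommRingCat.of (ZN N))),
      (∀ l, IsModel n (g l)) →
    ∀ (c : Fin r → ℤ) (t : Fin r → ℕ) (ε : ℤ) (α : Nat.Primes → Fin b → ℂ) (w : ℝ),
      ε * ε = 1 → (∀ p k, ‖α p k‖ ≤ (p.1 : ℝ) ^ w) → PointsAre N X Y c t ε α →
      ContinuesIn S (hasseWeil N α)

lemma continues_iff (S : Set ℂ) (X : Sch ℤ) : ContinuesIn S (zeta X.left) ↔ ZMer S X :=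
  ⟨fun ⟨F, hF, h⟩ => ⟨F, ⟨hF.1, hF.2⟩, h⟩, fun ⟨F, hF, h⟩ => ⟨F, ⟨hF.mero, hF.order⟩, h⟩⟩

lemma allSchemes_iff (S : Set ℂ) (n : ℕ) : AllSchemes S n ↔
    ∀ X : Sch ℤ, FT False X → FibLE n (X := X.left) X.hom → ZMer S X :=
  ⟨fun h X hX hn => (continues_iff S X).1
      (h X.left X.hom hX.locallyOfFiniteType hX.quasiCompact hn),
    fun h X f hf hq hn => (continues_iff S (Over.mk f)).2
      (h (Over.mk f) ⟨hf, hq, fun h => h.elim⟩ hn)⟩

lemma blocks_iff (S : Set ℂ) (d : ℕ) : Blocks S d ↔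
    ∀ (a b c : ℕ) (T : Fin a → Fin b → Fin c → ℤ), a ≤ d ∨ b ≤ d ∨ c ≤ d → ZMer S (hypS T) := by
  unfold Blocks
  simp only [continues_iff]

/-- From smooth domains to all schemes. -/
lemma all_of_smooth {S : Set ℂ} (hS : Tr S) {n : ℕ} (h : SmoothDomains S n) : AllSchemes S n := by
  have hz : Mer S (idN (maxS ℤ)) := by
    have h1 := h ℤ (Or.inl inferInstance) (fib_int n ℤ fun a => ⟨1, a, by simp, by simp⟩)
    exact (zmer_aff ℤ).1 ((continues_iff S (aff ℤ ℤ)).1 h1)
  have hP := bnd_zmer hS hz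
  rw [allSchemes_iff]
  intro X hX hn
  refine fib_of_affine hP (fun A _ inst _ hA => ?_) X hX hn
  obtain rfl : inst = Ring.toIntAlgebra A := Subsingleton.elim _ _
  refine noeth hP (fun B _ _ hB => p_empty hP B hB) fun p hp => ?_
  have hBft : @Algebra.FiniteType ℤ (A ⧸ p) _ _ (Ring.toIntAlgebra (A ⧸ p)) :=
    Algebra.FiniteType.of_surjective (Ideal.Quotient.mk p).toIntAlgHom Ideal.Quotient.mk_surjective
  have h2 : FibLE n (Spec.map (CommRingCat.ofHom (@algebraMap ℤ (A ⧸ p) _ _
      (Ring.toIntAlgebra (A ⧸ p))))) := by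
    rw [fib_affine] at hA ⊢
    exact fun K _ => (dim_surj (Ideal.Quotient.mk p) Ideal.Quotient.mk_surjective K).trans (hA K)
  have hdom : ∀ w : A ⧸ p, w ≠ 0 → IsDomain (Localization.Away w) := fun w hw =>
    IsLocalization.isDomain_localization (powers_le_nonZeroDivisors_of_noZeroDivisors hw)
  obtain ⟨q, hq⟩ := CharP.exists (A ⧸ p)
  rcases CharP.char_is_prime_or_zero (A ⧸ p) q with h0 | rfl
  · have : Fact q.Prime := ⟨h0⟩
    let _ : Algebra (ZMod q) (A ⧸ p) := ZMod.algebra _ q
    have h1 : Algebra.FiniteType (ZMod q) (A ⧸ p) := by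
      have : IsScalarTower ℤ (ZMod q) (A ⧸ p) :=
        IsScalarTower.of_algebraMap_eq' (RingHom.ext_int _ _)
      exact Algebra.FiniteType.of_restrictScalars_finiteType ℤ (ZMod q) (A ⧸ p)
    obtain ⟨w, hw, hs⟩ := exists_smooth (k := ZMod q) (A ⧸ p)
    have := hdom w hw
    refine ⟨w, hw, (continues_iff S (aff ℤ _)).1 (h _ (Or.inr ⟨q, ‹_›, inferInstance, hs⟩) ?_)⟩
    exact fib_away w h2 _
  · have : CharZero (A ⧸ p) := CharP.charP_to_charZero _
    obtain ⟨w, hw, hs⟩ := exists_smooth_int (A ⧸ p)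
    have := hdom w hw
    refine ⟨w, hw, (continues_iff S (aff ℤ _)).1 (h _ (Or.inl ?_) (fib_away w h2 _))⟩
    convert hs
    exact Subsingleton.elim _ _

lemma mer_of_all {S : Set ℂ} {n : ℕ} (h : AllSchemes S n) : Mer S (idN (maxS ℤ)) :=
  (zmer_aff ℤ).1 ((allSchemes_iff S n).1 h (aff ℤ ℤ) (ft_aff False)
    (fib_int n ℤ fun a => ⟨1, a, by simp, by simp⟩))

lemma smooth_of_all {S : Set ℂ} {n : ℕ} (h : AllSchemes S n) : SmoothDomains S n := by
  intro A _ _ hA hn
  have h1 : Algebra.FiniteType ℤ A := by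
    rcases hA with hA | ⟨p, hp, inst, hA⟩
    · exact Algebra.FiniteType.of_finitePresentation
    · have h1 : Algebra.FiniteType (ZMod p) A := Algebra.FiniteType.of_finitePresentation
      have h2 : Algebra.FiniteType ℤ (ZMod p) := Algebra.FiniteType.of_surjective
        (Int.castRingHom (ZMod p)).toIntAlgHom (ZMod.ringHom_surjective _)
      exact Algebra.FiniteType.trans h2 h1
  have h2 : FT False (aff ℤ A) := ft_aff False
  exact h (Spec (CommRingCat.of A)) (Spec.map (CommRingCat.ofHom (algebraMap ℤ A)))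
    h2.locallyOfFiniteType h2.quasiCompact hn

lemma trip_of_nets {S : Set ℂ} (hS : Tr S) {c : ℕ} (h : ZeroOneNets S c)
    (hz : Mer S (idN (maxS ℤ))) (a b : ℕ) (H : Finset (Fin a × Fin b × Fin c)) :
    ZMer S (tripS ℤ H) := by
  have h2 : ZMer S (hypS fun i j k => if (i, j, k) ∈ H then (1 : ℤ) else 0) := by
    rw [zmer_net hS hz]
    obtain ⟨F, hF, h1⟩ := h a b (slices fun i j k => if (i, j, k) ∈ H then (1 : ℤ) else 0)
      fun k i j => by
        change (if (i, j, k) ∈ H then (1 : ℤ) else 0) = 0 ∨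
          (if (i, j, k) ∈ H then (1 : ℤ) else 0) = 1
        split_ifs
        · exact Or.inr rfl
        · exact Or.inl rfl
    exact ⟨F, ⟨hF.1, hF.2⟩, h1⟩
  unfold hypS Hyp at h2
  rw [tri_ind] at h2
  exact h2

lemma mer_of_nets {S : Set ℂ} (hS : Tr S) {c : ℕ} (h : ZeroOneNets S c) :
    Mer S (idN (maxS ℤ)) := by
  obtain ⟨F, hF, h1⟩ := h 0 0 (slices fun (_ : Fin 0) (_ : Fin 0) (_ : Fin c) => (0 : ℤ))
    fun k i j => i.elim0
  exact mer_int_of_net hS c ⟨F, ⟨hF.1, hF.2⟩, h1⟩

/-- **The Hasse-Weil conjecture in dimension `n` and matrices with entries `0` and `1`.** -/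
theorem result (S : Set ℂ) (hS : ∀ s, s + 1 ∈ S ↔ s ∈ S) (n : ℕ) :
    List.TFAE [AllSchemes S n, SmoothDomains S n, Blocks S (n + 2), ZeroOneNets S (n + 2)] ∧
      (ZeroOneNets S (n + 2) → FlatSchemes S (n + 1) ∧ LFunctions S n) := by
  have h41 : ZeroOneNets S (n + 2) → AllSchemes S n := fun h => (allSchemes_iff S n).2
    (((fib_main_sep (bnd_zmer hS (mer_of_nets hS h)) n).out 2 1).1
      (trip_of_nets hS h (mer_of_nets hS h)))
  refine ⟨?_, fun h => ⟨?_, ?_⟩⟩
  · tfae_have 1 → 2 := smooth_of_all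
    tfae_have 2 → 1 := all_of_smooth hS
    tfae_have 1 → 3 := fun h => (blocks_iff S (n + 2)).2
      (((fib_main_sep (bnd_zmer hS (mer_of_all h)) n).out 1 3).1 ((allSchemes_iff S n).1 h))
    tfae_have 3 → 4 := by
      intro h a b A _
      rw [blocks_iff] at h
      have hz := mer_int_of_t0 hS (h 1 1 (n + 2) (T0 n) (Or.inr (Or.inr le_rfl)))
      obtain ⟨F, hF, h1⟩ := (zmer_net hS hz _).1
        (h a b (n + 2) (fun i j k => A k i j) (Or.inr (Or.inr le_rfl)))
      exact ⟨F, ⟨hF.mero, hF.order⟩, h1⟩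
    tfae_have 4 → 1 := h41
    tfae_finish
  · have hz := mer_of_nets hS h
    intro X f hf hq hI hflat hd
    have h1 : FT False (Over.mk f : Sch ℤ) := ⟨hf, hq, fun h => h.elim⟩
    have h2 : IsIntegral (Over.mk f : Sch ℤ).left := hI
    have h3 : Flat (Over.mk f : Sch ℤ).hom := hflat
    exact (continues_iff S (Over.mk f)).2
      (flat_main (bnd_zmer hS hz) (trip_of_nets hS h hz) (Over.mk f) h1 hd)
  · intro N X f hf b r Y g hg c t ε α w hε hw hc
    have h2 : ∀ {X : Scheme.{0}} {f : X ⟶ Spec (CommRingCat.of (ZN N))}, IsModel n f →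
        ZMer S (baseZ f) := by
      intro X f hf
      have h3 := ft_baseZ f hf.1 hf.2.1
      exact (continues_iff S (baseZ f)).1
        (h41 h _ _ h3.locallyOfFiniteType h3.quasiCompact hf.2.2)
    obtain ⟨F, hF, h3⟩ := hasseWeil_gen hS f hf.1 hf.2.1 (h2 hf) g (fun l => (hg l).1)
      (fun l => (hg l).2.1) (fun l => h2 (hg l)) hw c t hε hc
    exact ⟨F, ⟨hF.mero, hF.order⟩, h3⟩

end Pool.Agent.Results.MP_039d94_nt.ZeroOneMatrices
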